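import Pool.Agent.U280.OE.Stm

/-!
# Project OE, package A1: the scalar integrals
-/

set_option autoImplicit false

open MeasureTheory Set Filter Topology

namespace Pool.Agent.U301.OE

open Pool.Agent.U280.OD Pool.Agent.U280.OE

theorem sqrt33 : Real.sqrt 33 * Real.sqrt 33 = 33 := Real.mul_self_sqrt (by norm_num)

theorem sqrt33_ne : Real.sqrt 33 ≠ 0 := by positivity

/-- the product on `(0, s]` -/
theorem left_eq {s l τ : ℝ} (hs : 0 < s) (h : τ ≤ s) :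
    psi (τ / s) * nu τ l = 1 / 6 * (l * Real.exp (-(τ * l)) * (2 + 2 * (τ * l) + (τ * l) ^ 2)) := by
  have h1 : max 1 (τ / s) = 1 := max_eq_left (by rw [div_le_one hs]; exact h)
  unfold psi nu
  rw [h1]
  have h2 := sqrt33_ne
  field_simp
  ring

/-- the product on `[s, ∞)` -/
theorem right_eq {s l τ : ℝ} (hs : 0 < s) (h : s ≤ τ) :
    psi (τ / s) * nu τ l = 1 / 6 * (3 * s ^ 2 / τ ^ 2 - 2 * s ^ 3 / τ ^ 3) *
      (l * Real.exp (-(τ * l)) * (2 + 2 * (τ * l) + (τ * l) ^ 2)) := by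
  have h1 : max 1 (τ / s) = τ / s := max_eq_right (by rw [one_le_div hs]; exact h)
  have h0 : τ ≠ 0 := (hs.trans_le h).ne'
  unfold psi nu
  rw [h1]
  have h2 := sqrt33_ne
  field_simp
  ring

theorem hexp (l τ : ℝ) : HasDerivAt (fun τ : ℝ => Real.exp (-(τ * l))) (Real.exp (-(τ * l)) * -l) τ := by
  have h1 : HasDerivAt (fun τ : ℝ => -(τ * l)) (-l) τ := by
    exact ((hasDerivAt_id τ).mul_const l).fun_neg.congr_deriv (by ring)
  exact h1.exp

theorem int_left {s l : ℝ} (hs : 0 < s) :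
    IntegrableOn (fun τ => psi (τ / s) * nu τ l) (Ioc 0 s) ∧
    ∫ τ in Ioc (0 : ℝ) s, psi (τ / s) * nu τ l =
      1 - 1 / 6 * (Real.exp (-(s * l)) * ((s * l) ^ 2 + 4 * (s * l) + 6)) := by
  set g : ℝ → ℝ := fun τ => 1 / 6 * (l * Real.exp (-(τ * l)) * (2 + 2 * (τ * l) + (τ * l) ^ 2))
    with hg
  have hgc : Continuous g := by fun_prop
  have heq : EqOn (fun τ => psi (τ / s) * nu τ l) g (Ioc 0 s) := fun τ hτ => left_eq hs hτ.2
  have hint : IntervalIntegrable g volume 0 s := hgc.intervalIntegrable _ _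
  refine ⟨?_, ?_⟩
  · exact ((intervalIntegrable_iff_integrableOn_Ioc_of_le hs.le).1 hint).congr_fun heq.symm
      measurableSet_Ioc
  · rw [setIntegral_congr_fun measurableSet_Ioc heq, ← intervalIntegral.integral_of_le hs.le]
    have hder : ∀ τ ∈ uIcc 0 s, HasDerivAt
        (fun τ : ℝ => -(1 / 6) * (Real.exp (-(τ * l)) * ((τ * l) ^ 2 + 4 * (τ * l) + 6))) (g τ) τ := by
      intro τ _
      have h1 : HasDerivAt (fun τ : ℝ => (τ * l) ^ 2 + 4 * (τ * l) + 6)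
          (2 * (τ * l) * l + 4 * l) τ := by
        have h2 : HasDerivAt (fun τ : ℝ => τ * l) l τ := by
          simpa using (hasDerivAt_id τ).mul_const l
        have h3 := ((h2.pow 2).add (h2.const_mul 4)).add_const (6 : ℝ)
        refine h3.congr_deriv ?_
        push_cast
        ring
      have h4 := ((hexp l τ).mul h1).const_mul (-(1 / 6 : ℝ))
      refine h4.congr_deriv ?_
      rw [hg]
      ring
    rw [intervalIntegral.integral_eq_sub_of_hasDerivAt hder hint]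
    simp only [zero_mul, neg_zero, Real.exp_zero]
    ring

theorem int_right {s l : ℝ} (hs : 0 < s) (hl : 0 < l) :
    IntegrableOn (fun τ => psi (τ / s) * nu τ l) (Ioi s) ∧
    ∫ τ in Ioi s, psi (τ / s) * nu τ l =
      1 / 6 * (Real.exp (-(s * l)) * ((s * l) ^ 2 + 4 * (s * l))) := by
  set g : ℝ → ℝ := fun τ => 1 / 6 * (3 * s ^ 2 / τ ^ 2 - 2 * s ^ 3 / τ ^ 3) *
      (l * Real.exp (-(τ * l)) * (2 + 2 * (τ * l) + (τ * l) ^ 2)) with hg
  have heq : EqOn (fun τ => psi (τ / s) * nu τ l) g (Ioi s) := fun τ hτ => right_eq hs (le_of_lt hτ)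
  set F : ℝ → ℝ := fun τ => -(1 / 6) * (Real.exp (-(τ * l)) *
    (3 * s ^ 2 * l ^ 2 + (6 * s ^ 2 * l - 2 * s ^ 3 * l ^ 2) * τ⁻¹ - 2 * s ^ 3 * l * (τ⁻¹) ^ 2)) with hF
  have hder : ∀ τ ∈ Ici s, HasDerivAt F (g τ) τ := by
    intro τ hτ
    have h0 : τ ≠ 0 := (hs.trans_le hτ).ne'
    have hi : HasDerivAt (fun τ : ℝ => τ⁻¹) (-(τ ^ 2)⁻¹) τ := hasDerivAt_inv h0
    have h1 : HasDerivAt (fun τ : ℝ => 3 * s ^ 2 * l ^ 2 + (6 * s ^ 2 * l - 2 * s ^ 3 * l ^ 2) * τ⁻¹ -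
        2 * s ^ 3 * l * (τ⁻¹) ^ 2)
        ((6 * s ^ 2 * l - 2 * s ^ 3 * l ^ 2) * (-(τ ^ 2)⁻¹) -
          2 * s ^ 3 * l * (2 * τ⁻¹ * (-(τ ^ 2)⁻¹))) τ := by
      have h3 := ((hi.const_mul (6 * s ^ 2 * l - 2 * s ^ 3 * l ^ 2)).const_add (3 * s ^ 2 * l ^ 2)).sub
        ((hi.pow 2).const_mul (2 * s ^ 3 * l))
      refine h3.congr_deriv ?_
      push_cast
      ring
    have h4 := ((hexp l τ).mul h1).const_mul (-(1 / 6 : ℝ))
    refine h4.congr_deriv ?_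
    rw [hg]
    field_simp
    ring
  have hpos : ∀ τ ∈ Ioi s, 0 ≤ g τ := by
    intro τ hτ
    have h0 : 0 < τ := hs.trans hτ
    have h1 : 0 ≤ 3 * s ^ 2 / τ ^ 2 - 2 * s ^ 3 / τ ^ 3 := by
      have h2 : 3 * s ^ 2 / τ ^ 2 - 2 * s ^ 3 / τ ^ 3 = s ^ 2 * (3 * τ - 2 * s) / τ ^ 3 := by
        field_simp
      rw [h2]
      have h3 : s < τ := hτ
      have h4 : 0 ≤ 3 * τ - 2 * s := by linarith
      positivity
    rw [hg]
    have h5 : 0 ≤ l * Real.exp (-(τ * l)) * (2 + 2 * (τ * l) + (τ * l) ^ 2) := by positivity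
    exact mul_nonneg (mul_nonneg (by norm_num) h1) h5
  have hlim : Tendsto F atTop (𝓝 0) := by
    have h1 : Tendsto (fun τ : ℝ => Real.exp (-(τ * l))) atTop (𝓝 0) :=
      Real.tendsto_exp_neg_atTop_nhds_zero.comp (tendsto_id.atTop_mul_const hl)
    have h2 : Tendsto (fun τ : ℝ => 3 * s ^ 2 * l ^ 2 + (6 * s ^ 2 * l - 2 * s ^ 3 * l ^ 2) * τ⁻¹ -
        2 * s ^ 3 * l * (τ⁻¹) ^ 2) atTop (𝓝 (3 * s ^ 2 * l ^ 2 + (6 * s ^ 2 * l - 2 * s ^ 3 * l ^ 2) * 0 -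
        2 * s ^ 3 * l * 0 ^ 2)) :=
      ((tendsto_inv_atTop_zero.const_mul _).const_add _).sub
        ((tendsto_inv_atTop_zero.pow 2).const_mul _)
    have h3 := (h1.mul h2).const_mul (-(1 / 6 : ℝ))
    have e : -(1 / 6 : ℝ) * (0 * (3 * s ^ 2 * l ^ 2 + (6 * s ^ 2 * l - 2 * s ^ 3 * l ^ 2) * 0 -
        2 * s ^ 3 * l * 0 ^ 2)) = 0 := by ring
    rw [e] at h3
    exact h3
  refine ⟨(integrableOn_Ioi_deriv_of_nonneg' hder hpos hlim).congr_fun heq.symm measurableSet_Ioi, ?_⟩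
  rw [setIntegral_congr_fun measurableSet_Ioi heq,
    integral_Ioi_of_hasDerivAt_of_nonneg' hder hpos hlim, hF]
  field_simp
  ring

/-- the second integral -/
theorem int_sq {l : ℝ} (hl : 0 < l) :
    IntegrableOn (fun τ => nu τ l ^ 2) (Ioi 0) ∧ ∫ τ in Ioi (0 : ℝ), nu τ l ^ 2 = l := by
  set F : ℝ → ℝ := fun τ => -(4 / 33) * l * (Real.exp (-(τ * l)) * (Real.exp (-(τ * l)) *
    (33 / 4 + 25 / 2 * (τ * l) + 17 / 2 * (τ * l) ^ 2 + 3 * (τ * l) ^ 3 + 1 / 2 * (τ * l) ^ 4))) with hF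
  have hder : ∀ τ ∈ Ici (0 : ℝ), HasDerivAt F (nu τ l ^ 2) τ := by
    intro τ _
    have h2 : HasDerivAt (fun τ : ℝ => τ * l) l τ := by
      simpa using (hasDerivAt_id τ).mul_const l
    have h1 : HasDerivAt (fun τ : ℝ => 33 / 4 + 25 / 2 * (τ * l) + 17 / 2 * (τ * l) ^ 2 +
        3 * (τ * l) ^ 3 + 1 / 2 * (τ * l) ^ 4)
        (25 / 2 * l + 17 / 2 * (2 * (τ * l) * l) + 3 * (3 * (τ * l) ^ 2 * l) +
          1 / 2 * (4 * (τ * l) ^ 3 * l)) τ := by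
      have h3 := (((h2.const_mul (25 / 2 : ℝ)).const_add (33 / 4 : ℝ)).add
        ((h2.pow 2).const_mul (17 / 2 : ℝ))).add ((h2.pow 3).const_mul (3 : ℝ)) |>.add
        ((h2.pow 4).const_mul (1 / 2 : ℝ))
      refine h3.congr_deriv ?_
      push_cast
      ring
    have h4 := ((hexp l τ).mul ((hexp l τ).mul h1)).const_mul (-(4 / 33) * l)
    refine h4.congr_deriv ?_
    have h5 : nu τ l ^ 2 = 4 / 33 * l ^ 2 * (Real.exp (-(τ * l)) * Real.exp (-(τ * l))) *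
        (2 + 2 * (τ * l) + (τ * l) ^ 2) ^ 2 := by
      unfold nu
      have h6 := sqrt33_ne
      have h7 : (2 / Real.sqrt 33) ^ 2 = 4 / 33 := by
        rw [div_pow, Real.sq_sqrt (by norm_num)]
        norm_num
      calc _ = (2 / Real.sqrt 33) ^ 2 * l ^ 2 * (Real.exp (-(τ * l)) * Real.exp (-(τ * l))) *
          (2 + 2 * (τ * l) + (τ * l) ^ 2) ^ 2 := by ring
        _ = _ := by rw [h7]
    rw [h5]
    simp only [Pi.mul_apply]
    ring
  have hlim : Tendsto F atTop (𝓝 0) := by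
    have hy : Tendsto (fun τ : ℝ => τ * l) atTop atTop := tendsto_id.atTop_mul_const hl
    have h1 : Tendsto (fun τ : ℝ => Real.exp (-(τ * l))) atTop (𝓝 0) :=
      Real.tendsto_exp_neg_atTop_nhds_zero.comp hy
    have hk : ∀ k : ℕ, Tendsto (fun τ : ℝ => (τ * l) ^ k * Real.exp (-(τ * l))) atTop (𝓝 0) :=
      fun k => (Real.tendsto_pow_mul_exp_neg_atTop_nhds_zero k).comp hy
    have h2 := (((((hk 0).const_mul (33 / 4 : ℝ)).add ((hk 1).const_mul (25 / 2 : ℝ))).add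
      ((hk 2).const_mul (17 / 2 : ℝ))).add ((hk 3).const_mul (3 : ℝ))).add
      ((hk 4).const_mul (1 / 2 : ℝ))
    have h3 := (h1.mul h2).const_mul (-(4 / 33) * l)
    simp only [mul_zero, add_zero] at h3
    refine h3.congr fun τ => ?_
    rw [hF]
    ring
  have hpos : ∀ τ ∈ Ioi (0 : ℝ), 0 ≤ nu τ l ^ 2 := fun τ _ => sq_nonneg _
  refine ⟨integrableOn_Ioi_deriv_of_nonneg' hder hpos hlim, ?_⟩
  rw [integral_Ioi_of_hasDerivAt_of_nonneg' hder hpos hlim, hF]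
  simp only [zero_mul, neg_zero, Real.exp_zero]
  ring

theorem nu_zero (τ : ℝ) : nu τ 0 = 0 := by simp [nu]

theorem t_A1 : T_A1 := by
  refine ⟨fun s l hs hl => ?_, fun l hl => ?_⟩
  · rcases hl.eq_or_lt with rfl | hl
    · simp [nu_zero]
    · obtain ⟨h1, h2⟩ := int_left (l := l) hs
      obtain ⟨h3, h4⟩ := int_right hs hl
      have hU : Ioi (0 : ℝ) = Ioc 0 s ∪ Ioi s := (Ioc_union_Ioi_eq_Ioi hs.le).symm
      refine ⟨by rw [hU]; exact h1.union h3, ?_⟩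
      rw [hU, setIntegral_union (Ioc_disjoint_Ioi le_rfl) measurableSet_Ioi h1 h3, h2, h4]
      ring
  · rcases hl.eq_or_lt with rfl | hl
    · simp [nu_zero]
    · obtain ⟨h1, h2⟩ := int_sq hl
      rw [← ofReal_integral_eq_lintegral_ofReal h1 (ae_of_all _ fun τ => sq_nonneg _), h2]

end Pool.Agent.U301.OE
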